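import Pool.Agent.Work.MP_02d86d_gt.Dih.RotSym
import Pool.Agent.Work.MP_02d86d_gt.Dih.Smooth

/-! Linear frames in the plane. -/

set_option autoImplicit false

namespace MP_02d86d_gt

open Set Filter Topology Metric

/-- The diagonal map. -/
noncomputable def dg (s : ℝ) (hs : s ≠ 0) :
    EuclideanSpace ℝ (Fin 2) ≃ₗ[ℝ] EuclideanSpace ℝ (Fin 2) where
  toFun x := !₂[s⁻¹ * x 0, s * x 1]
  invFun x := !₂[s * x 0, s⁻¹ * x 1]
  map_add' x y := by
    ext i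
    fin_cases i <;> simp <;> ring
  map_smul' r x := by
    ext i
    fin_cases i <;> simp <;> ring
  left_inv x := by
    ext i
    fin_cases i <;> simp [hs]
  right_inv x := by
    ext i
    fin_cases i <;> simp [hs]

theorem dg_apply (s : ℝ) (hs : s ≠ 0) (x : EuclideanSpace ℝ (Fin 2)) :
    dg s hs x = !₂[s⁻¹ * x 0, s * x 1] := rfl

/-- The frame: it maps `dir θ'` to `s⁻¹ • dir θ` and the orthogonal vector to `s` times the
orthogonal vector. -/
noncomputable def fr (θ θ' s : ℝ) (hs : s ≠ 0) :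
    EuclideanSpace ℝ (Fin 2) ≃ₗ[ℝ] EuclideanSpace ℝ (Fin 2) :=
  ((rot (-θ')).toLinearEquiv.trans (dg s hs)).trans (rot θ).toLinearEquiv

theorem fr_dir (θ θ' s : ℝ) (hs : s ≠ 0) (α : ℝ) :
    fr θ θ' s hs (dir (θ' + α)) =
      (s⁻¹ * Real.cos α) • dir θ + (s * Real.sin α) • dir (θ + Real.pi / 2) := by
  have h1 : rot (-θ') (dir (θ' + α)) = dir α := by
    have := rot_dir (-θ') 1 (θ' + α)
    rw [one_smul, one_smul] at this
    rw [this]
    congr 1
    ring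
  have h2 : fr θ θ' s hs (dir (θ' + α)) = rot θ (dg s hs (rot (-θ') (dir (θ' + α)))) := rfl
  rw [h2, h1, dg_apply, rot_apply]
  ext i
  fin_cases i
  · simp [dir, Real.cos_add_pi_div_two]
    ring
  · simp [dir, Real.sin_add_pi_div_two]
    ring

theorem dir_add (θ d : ℝ) :
    dir (θ + d) = Real.cos d • dir θ + Real.sin d • dir (θ + Real.pi / 2) := by
  ext i
  fin_cases i
  · simp [dir, Real.cos_add_pi_div_two, Real.cos_add]
    ring
  · simp [dir, Real.sin_add_pi_div_two, Real.sin_add]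
    ring

theorem orth_dir {x : EuclideanSpace ℝ (Fin 2)} {β : ℝ} (h : inner ℝ x (dir β) = 0) :
    ∃ r : ℝ, x = r • dir (β + Real.pi / 2) := by
  have h1 : x 0 * Real.cos β + x 1 * Real.sin β = 0 := by
    rw [← h, inner_dir]
  refine ⟨-(x 0) * Real.sin β + x 1 * Real.cos β, ?_⟩
  have h2 := Real.sin_sq_add_cos_sq β
  ext i
  fin_cases i
  · simp [dir, Real.cos_add_pi_div_two]
    linear_combination Real.cos β * h1 - x 0 * h2
  · simp [dir, Real.sin_add_pi_div_two]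
    linear_combination Real.sin β * h1 - x 1 * h2

theorem inner_dir_orth (β : ℝ) : inner ℝ (dir (β + Real.pi / 2)) (dir β) = 0 := by
  rw [inner_dir]
  simp [dir, Real.cos_add_pi_div_two, Real.sin_add_pi_div_two]
  ring

/-- The conditions for the equivariance. -/
theorem frame_step {θ θ' d e s s' : ℝ} (hs : s ≠ 0) (hs' : s' ≠ 0)
    (h : s' ^ 2 = s ^ 2 * Real.cos d ^ 2 + Real.sin d ^ 2 / s ^ 2)
    (hc : Real.cos e = s * Real.cos d / s') (hsn : Real.sin e = Real.sin d / (s * s')) :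
    fr θ θ' s hs (dir (θ' + e)) = s'⁻¹ • dir (θ + d) ∧
    fr (θ + d) (θ' + e) s' hs' (dir (θ' + e)) = s'⁻¹ • dir (θ + d) ∧
    (∀ x, inner ℝ x (dir (θ' + e)) = 0 →
      inner ℝ (fr (θ + d) (θ' + e) s' hs' x) (dir (θ + d)) = 0) ∧
    (∀ x, inner ℝ x (dir (θ' + e)) = 0 →
      ∃ k : ℝ, fr θ θ' s hs x = fr (θ + d) (θ' + e) s' hs' x + k • dir (θ + d)) := by
  have hB : fr (θ + d) (θ' + e) s' hs' (dir (θ' + e + Real.pi / 2)) =
      s' • dir (θ + d + Real.pi / 2) := by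
    rw [fr_dir]
    simp
  refine ⟨?_, ?_, ?_, ?_⟩
  · rw [fr_dir, dir_add θ d, hc, hsn, smul_add, smul_smul, smul_smul]
    congr 2 <;> field_simp
  · have := fr_dir (θ + d) (θ' + e) s' hs' 0
    rw [add_zero] at this
    rw [this]
    simp
  · intro x hx
    obtain ⟨r, rfl⟩ := orth_dir hx
    rw [map_smul, hB, smul_smul, inner_smul_left, inner_dir_orth, mul_zero]
  · intro x hx
    obtain ⟨r, rfl⟩ := orth_dir hx
    have hkey : s' = s⁻¹ * Real.sin e * Real.sin d + s * Real.cos e * Real.cos d := by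
      rw [hc, hsn]
      field_simp
      field_simp at h
      linear_combination h
    have h2 := Real.sin_sq_add_cos_sq d
    obtain ⟨k, e1, e2⟩ : ∃ k : ℝ, s⁻¹ * -Real.sin e = s' * -Real.sin d + k * Real.cos d ∧
        s * Real.cos e = s' * Real.cos d + k * Real.sin d := by
      refine ⟨-(s⁻¹ * Real.sin e) * Real.cos d + s * Real.cos e * Real.sin d, ?_, ?_⟩
      · rw [hkey]
        linear_combination (s⁻¹ * Real.sin e) * h2
      · rw [hkey]
        linear_combination (-(s * Real.cos e)) * h2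
    refine ⟨r * k, ?_⟩
    rw [map_smul, map_smul, hB, add_assoc, fr_dir, dir_add θ d,
      show θ + d + Real.pi / 2 = θ + (d + Real.pi / 2) by ring, dir_add θ (d + Real.pi / 2)]
    rw [Real.cos_add_pi_div_two, Real.cos_add_pi_div_two, Real.sin_add_pi_div_two,
      Real.sin_add_pi_div_two, e1, e2]
    module

theorem norm_dg_sq (s : ℝ) (hs : s ≠ 0) (x : EuclideanSpace ℝ (Fin 2)) :
    ‖dg s hs x‖ ^ 2 = (s⁻¹) ^ 2 * x 0 ^ 2 + s ^ 2 * x 1 ^ 2 := by
  rw [dg_apply, EuclideanSpace.real_norm_sq_eq, Fin.sum_univ_two]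
  simp
  ring

theorem norm_fr (θ θ' s : ℝ) (hs : s ≠ 0) (x : EuclideanSpace ℝ (Fin 2)) :
    ‖fr θ θ' s hs x‖ = ‖dg s hs (rot (-θ') x)‖ := by
  have h2 : fr θ θ' s hs x = rot θ (dg s hs (rot (-θ') x)) := rfl
  rw [h2, LinearIsometryEquiv.norm_map]

theorem norm_fr_le {s c : ℝ} (hs : 0 < s) (hc : 0 < c) (h1 : c ≤ s) (h2 : c ≤ s⁻¹) (θ θ' : ℝ)
    (x : EuclideanSpace ℝ (Fin 2)) : ‖fr θ θ' s hs.ne' x‖ ≤ c⁻¹ * ‖x‖ := by
  rw [norm_fr, ← LinearIsometryEquiv.norm_map (rot (-θ')) x]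
  set y := rot (-θ') x
  have h3 : s⁻¹ ≤ c⁻¹ := inv_anti₀ hc h1
  have h4 : s ≤ c⁻¹ := by
    rw [← inv_inv s]
    exact inv_anti₀ hc h2
  have h5 : 0 < s⁻¹ := inv_pos.2 hs
  have h6 : 0 < c⁻¹ := inv_pos.2 hc
  refine (pow_le_pow_iff_left₀ (norm_nonneg _) (by positivity) two_ne_zero).1 ?_
  rw [norm_dg_sq, mul_pow, EuclideanSpace.real_norm_sq_eq, Fin.sum_univ_two, mul_add]
  have h7 : (s⁻¹) ^ 2 ≤ (c⁻¹) ^ 2 := pow_le_pow_left₀ h5.le h3 2
  have h8 : s ^ 2 ≤ (c⁻¹) ^ 2 := pow_le_pow_left₀ hs.le h4 2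
  exact add_le_add (mul_le_mul_of_nonneg_right h7 (sq_nonneg _))
    (mul_le_mul_of_nonneg_right h8 (sq_nonneg _))

theorem le_norm_fr {s c : ℝ} (hs : 0 < s) (hc : 0 < c) (h1 : c ≤ s) (h2 : c ≤ s⁻¹) (θ θ' : ℝ)
    (x : EuclideanSpace ℝ (Fin 2)) : c * ‖x‖ ≤ ‖fr θ θ' s hs.ne' x‖ := by
  rw [norm_fr, ← LinearIsometryEquiv.norm_map (rot (-θ')) x]
  set y := rot (-θ') x
  refine (pow_le_pow_iff_left₀ (by positivity) (norm_nonneg _) two_ne_zero).1 ?_
  rw [norm_dg_sq, mul_pow, EuclideanSpace.real_norm_sq_eq, Fin.sum_univ_two, mul_add]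
  exact add_le_add (mul_le_mul_of_nonneg_right (pow_le_pow_left₀ hc.le h2 2) (sq_nonneg _))
    (mul_le_mul_of_nonneg_right (pow_le_pow_left₀ hc.le h1 2) (sq_nonneg _))

end MP_02d86d_gt
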