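import Pool.Agent.Work.MP_02d86d_gt.Comp

/-! Limits of bodies under a bounded sequence of linear maps. -/

set_option autoImplicit false

namespace MP_02d86d_gt

open MeasureTheory Set Filter Topology Metric

variable {n : ℕ}

/-- A sequence of linear equivalences, bounded together with the inverses, has a subsequence
which converges in norm to a linear equivalence. -/
theorem exists_linear_subseq {c : ℝ} (hc : 0 < c)
    (M : ℕ → (EuclideanSpace ℝ (Fin n) ≃ₗ[ℝ] EuclideanSpace ℝ (Fin n)))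
    (hM1 : ∀ i x, ‖M i x‖ ≤ c⁻¹ * ‖x‖) (hM2 : ∀ i x, c * ‖x‖ ≤ ‖M i x‖) :
    ∃ (N : EuclideanSpace ℝ (Fin n) ≃ₗ[ℝ] EuclideanSpace ℝ (Fin n)) (φ : ℕ → ℕ),
      StrictMono φ ∧ (∀ x, c * ‖x‖ ≤ ‖N x‖) ∧ ∃ δ : ℕ → ℝ, (∀ i, 0 ≤ δ i) ∧
        Tendsto δ atTop (𝓝 0) ∧ ∀ i x, ‖M (φ i) x - N x‖ ≤ δ i * ‖x‖ := by
  let f : ℕ → (EuclideanSpace ℝ (Fin n) →L[ℝ] EuclideanSpace ℝ (Fin n)) := fun i =>
    LinearMap.toContinuousLinearMap
      ((M i : EuclideanSpace ℝ (Fin n) →ₗ[ℝ] EuclideanSpace ℝ (Fin n)))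
  have hf : ∀ i x, f i x = M i x := fun i x => rfl
  have hb : ∀ i, f i ∈ closedBall (0 : EuclideanSpace ℝ (Fin n) →L[ℝ] EuclideanSpace ℝ (Fin n))
      c⁻¹ := by
    intro i
    rw [mem_closedBall_zero_iff]
    refine ContinuousLinearMap.opNorm_le_bound _ (inv_nonneg.2 hc.le) fun x => ?_
    rw [hf]
    exact hM1 i x
  haveI : ProperSpace (EuclideanSpace ℝ (Fin n) →L[ℝ] EuclideanSpace ℝ (Fin n)) :=
    FiniteDimensional.proper_real _
  obtain ⟨A, _, φ, hφ, hA⟩ := (isCompact_closedBall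
    (0 : EuclideanSpace ℝ (Fin n) →L[ℝ] EuclideanSpace ℝ (Fin n)) c⁻¹).tendsto_subseq hb
  have hA0 : Tendsto (fun i => ‖f (φ i) - A‖) atTop (𝓝 0) :=
    tendsto_iff_norm_sub_tendsto_zero.1 hA
  have hdist : ∀ i x, ‖M (φ i) x - A x‖ ≤ ‖f (φ i) - A‖ * ‖x‖ := fun i x =>
    ContinuousLinearMap.le_opNorm (f (φ i) - A) x
  have hnorm : ∀ x, c * ‖x‖ ≤ ‖A x‖ := by
    intro x
    have h1 : Tendsto (fun i => M (φ i) x) atTop (𝓝 (A x)) := by
      rw [tendsto_iff_norm_sub_tendsto_zero]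
      refine squeeze_zero (fun i => norm_nonneg _) (fun i => hdist i x) ?_
      simpa using hA0.mul_const ‖x‖
    exact ge_of_tendsto h1.norm (Eventually.of_forall fun i => hM2 (φ i) x)
  have hinj : Function.Injective
      (A : EuclideanSpace ℝ (Fin n) →ₗ[ℝ] EuclideanSpace ℝ (Fin n)) := by
    intro x y hxy
    have h1 : A (x - y) = 0 := by
      rw [map_sub, sub_eq_zero]
      exact hxy
    have h2 := hnorm (x - y)
    rw [h1, norm_zero] at h2
    have h3 : ‖x - y‖ ≤ 0 := by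
      by_contra hcon
      have := mul_pos hc (not_le.1 hcon)
      linarith
    exact sub_eq_zero.1 (norm_le_zero_iff.1 h3)
  refine ⟨LinearEquiv.ofInjectiveEndo _ hinj, φ, hφ, fun x => ?_, fun i => ‖f (φ i) - A‖,
    fun i => norm_nonneg _, hA0, fun i x => ?_⟩
  · exact hnorm x
  · exact hdist i x

/-- limits under a bounded sequence of linear maps -/
theorem linear_limit {K : ℕ → Set (EuclideanSpace ℝ (Fin n))} {R c : ℝ} (hc : 0 < c)
    (hK : ∀ i, (K i).Nonempty) (cK : ∀ i, IsCompact (K i)) (vK : ∀ i, Convex ℝ (K i))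
    (bK : ∀ i, K i ⊆ closedBall 0 R)
    (M : ℕ → (EuclideanSpace ℝ (Fin n) ≃ₗ[ℝ] EuclideanSpace ℝ (Fin n)))
    (hM1 : ∀ i x, ‖M i x‖ ≤ c⁻¹ * ‖x‖) (hM2 : ∀ i x, c * ‖x‖ ≤ ‖M i x‖)
    {L : Set (EuclideanSpace ℝ (Fin n))} (hL : IsCompact L) (hLn : L.Nonempty)
    (hlim : Tendsto (fun i => hausdorffDist (M i '' K i) L) atTop (𝓝 0)) :
    ∃ (φ : ℕ → ℕ) (N : EuclideanSpace ℝ (Fin n) ≃ₗ[ℝ] EuclideanSpace ℝ (Fin n))
      (L' : Set (EuclideanSpace ℝ (Fin n))), StrictMono φ ∧ IsCompact L' ∧ Convex ℝ L' ∧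
      L'.Nonempty ∧ L' ⊆ closedBall 0 R ∧ L = N '' L' ∧
      Tendsto (fun i => hausdorffDist (K (φ i)) L') atTop (𝓝 0) := by
  obtain ⟨N, φ, hφ, hN, δ, hδ0, hδ, hMN⟩ := exists_linear_subseq hc M hM1 hM2
  have hcN : Continuous N.symm :=
    (N.symm : EuclideanSpace ℝ (Fin n) →ₗ[ℝ] EuclideanSpace ℝ (Fin n)).continuous_of_finiteDimensional
  have cL' : IsCompact (N.symm '' L) := hL.image hcN
  have nL' : (N.symm '' L).Nonempty := hLn.image _
  have hcM : ∀ i, Continuous (M i) := fun i =>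
    (M i : EuclideanSpace ℝ (Fin n) →ₗ[ℝ] EuclideanSpace ℝ (Fin n)).continuous_of_finiteDimensional
  have cMK : ∀ i, IsCompact (M i '' K i) := fun i => (cK i).image (hcM i)
  have hR : 0 ≤ R := by
    obtain ⟨x, hx⟩ := hK 0
    have := bK 0 hx
    rw [mem_closedBall_zero_iff] at this
    exact (norm_nonneg x).trans this
  have hfin : ∀ i, hausdorffEDist (M i '' K i) L ≠ ⊤ := fun i =>
    hausdorffEDist_ne_top_of_nonempty_of_bounded ((hK i).image _) hLn (cMK i).isBounded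
      hL.isBounded
  -- the key estimate
  have key : ∀ i x y r, x ∈ K (φ i) → dist (M (φ i) x) y ≤ r →
      dist x (N.symm y) ≤ c⁻¹ * (δ i * R + r) := by
    intro i x y r hx hr
    have h1 : c * dist x (N.symm y) ≤ ‖N x - y‖ := by
      have h2 := hN (x - N.symm y)
      rw [map_sub, LinearEquiv.apply_symm_apply] at h2
      rw [dist_eq_norm]
      exact h2
    have h2 : ‖N x - y‖ ≤ δ i * R + r := by
      have h3 : N x - y = -(M (φ i) x - N x) + (M (φ i) x - y) := by abel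
      rw [h3]
      refine (norm_add_le _ _).trans (add_le_add ?_ ?_)
      · rw [norm_neg]
        refine (hMN i x).trans (mul_le_mul_of_nonneg_left ?_ (hδ0 i))
        have := bK _ hx
        rwa [mem_closedBall_zero_iff] at this
      · rw [← dist_eq_norm]
        exact hr
    calc dist x (N.symm y) = c⁻¹ * (c * dist x (N.symm y)) := by
          rw [← mul_assoc, inv_mul_cancel₀ hc.ne', one_mul]
      _ ≤ c⁻¹ * (δ i * R + r) :=
          mul_le_mul_of_nonneg_left (h1.trans h2) (inv_nonneg.2 hc.le)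
  have hbound : ∀ i, hausdorffDist (K (φ i)) (N.symm '' L) ≤
      c⁻¹ * (δ i * R + (hausdorffDist (M (φ i) '' K (φ i)) L + 1 / ((i : ℝ) + 1))) := by
    intro i
    have hpos : (0 : ℝ) < 1 / ((i : ℝ) + 1) := Nat.one_div_pos_of_nat
    have hlt : hausdorffDist (M (φ i) '' K (φ i)) L <
        hausdorffDist (M (φ i) '' K (φ i)) L + 1 / ((i : ℝ) + 1) := by linarith
    have hnn : 0 ≤ hausdorffDist (M (φ i) '' K (φ i)) L + 1 / ((i : ℝ) + 1) :=
      add_nonneg hausdorffDist_nonneg hpos.le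
    refine hausdorffDist_le_of_mem_dist ?_ ?_ ?_
    · exact mul_nonneg (inv_nonneg.2 hc.le) (add_nonneg (mul_nonneg (hδ0 i) hR) hnn)
    · intro x hx
      obtain ⟨y, hy, hxy⟩ := exists_dist_lt_of_hausdorffDist_lt (mem_image_of_mem _ hx) hlt
        (hfin (φ i))
      exact ⟨N.symm y, mem_image_of_mem _ hy, key i x y _ hx hxy.le⟩
    · rintro _ ⟨y, hy, rfl⟩
      obtain ⟨_, ⟨x, hx, rfl⟩, hxy⟩ := exists_dist_lt_of_hausdorffDist_lt' hy hlt (hfin (φ i))
      refine ⟨x, hx, ?_⟩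
      rw [dist_comm]
      exact key i x y _ hx hxy.le
  have hlim' : Tendsto (fun i => hausdorffDist (K (φ i)) (N.symm '' L)) atTop (𝓝 0) := by
    refine squeeze_zero (fun i => hausdorffDist_nonneg) hbound ?_
    have h1 : Tendsto (fun i => hausdorffDist (M (φ i) '' K (φ i)) L) atTop (𝓝 0) :=
      hlim.comp hφ.tendsto_atTop
    have h2 := ((hδ.mul_const R).add (h1.add
      (tendsto_one_div_add_atTop_nhds_zero_nat (𝕜 := ℝ)))).const_mul c⁻¹
    simpa using h2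
  have bK' : ∀ i, Bornology.IsBounded (K (φ i)) := fun i => (cK _).isBounded
  refine ⟨φ, N, N.symm '' L, hφ, cL', ?_, nL', ?_, ?_, hlim'⟩
  · intro x hx y hy a b ha hb hab
    obtain ⟨x', hx', hx''⟩ := hd_exists (fun i => hK (φ i)) nL' bK' cL'.isBounded hlim' hx
    obtain ⟨y', hy', hy''⟩ := hd_exists (fun i => hK (φ i)) nL' bK' cL'.isBounded hlim' hy
    exact hd_mem (fun i => hK (φ i)) nL' bK' cL'.isBounded cL'.isClosed hlim'
      (fun i => vK (φ i) (hx' i) (hy' i) ha hb hab)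
      ((hx''.const_smul a).add (hy''.const_smul b))
  · intro x hx
    obtain ⟨x', hx', hx''⟩ := hd_exists (fun i => hK (φ i)) nL' bK' cL'.isBounded hlim' hx
    exact isClosed_closedBall.mem_of_tendsto hx'' (Eventually.of_forall fun i => bK _ (hx' i))
  · rw [image_image]
    simp

end MP_02d86d_gt
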