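import Pool.Agent.Work.MP_02d86d_gt.Main

/-! Steiner symmetrals of linear images. -/

set_option autoImplicit false

namespace MP_02d86d_gt

open MeasureTheory Set Filter Topology Metric

variable {n : ℕ}

theorem volume_affine_preimage {a : ℝ} (ha : 0 < a) (k : ℝ) (S : Set ℝ) :
    volume {s : ℝ | (s - k) / a ∈ S} = ENNReal.ofReal a * volume S := by
  have h1 : {s : ℝ | (s - k) / a ∈ S} = (fun s => s + -k) ⁻¹' ((fun s => a⁻¹ * s) ⁻¹' S) := by
    ext s
    simp only [mem_ofPred_eq, mem_preimage]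
    rw [div_eq_inv_mul, sub_eq_add_neg]
  rw [h1, measure_preimage_add_right, Real.volume_preimage_mul_left (inv_ne_zero ha.ne'),
    inv_inv, abs_of_pos ha]

/-- The Steiner symmetral of a linear image. -/
theorem st_linear {u v : EuclideanSpace ℝ (Fin n)} (hu : ‖u‖ = 1) (hv : ‖v‖ = 1) {a : ℝ}
    (ha : 0 < a) (A B : EuclideanSpace ℝ (Fin n) ≃ₗ[ℝ] EuclideanSpace ℝ (Fin n))
    (hA : A v = a • u) (hB : B v = a • u) (h1 : ∀ x, inner ℝ x v = 0 → inner ℝ (B x) u = 0)
    (h2 : ∀ x, inner ℝ x v = 0 → ∃ k : ℝ, A x = B x + k • u)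
    (K : Set (EuclideanSpace ℝ (Fin n))) : st u (A '' K) = B '' st v K := by
  have key : ∀ y, B y ∈ st u (A '' K) ↔ y ∈ st v K := by
    intro y
    set r : ℝ := inner ℝ y v with hr
    set z := y - r • v with hz
    have hzv : inner ℝ z v = 0 := by
      rw [hz, inner_sub_left, real_inner_smul_left, real_inner_self_eq_norm_sq, hv, ← hr]
      ring
    have hy : y = z + r • v := by rw [hz]; abel
    have hBy : B y = B z + (r * a) • u := by
      conv_lhs => rw [hy, map_add, map_smul, hB, smul_smul]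
    have hin : inner ℝ (B y) u = r * a := by
      rw [hBy, inner_add_left, h1 z hzv, real_inner_smul_left, real_inner_self_eq_norm_sq, hu]
      ring
    have hpr : B y - inner ℝ (B y) u • u = B z := by
      rw [hin, hBy]
      abel
    obtain ⟨k, hk⟩ := h2 z hzv
    have hfib : ∀ s : ℝ, B z + s • u ∈ A '' K ↔ z + ((s - k) / a) • v ∈ K := by
      intro s
      have e : B z + s • u = A (z + ((s - k) / a) • v) := by
        rw [map_add, map_smul, hA, hk, smul_smul, div_mul_cancel₀ _ ha.ne', sub_smul]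
        abel
      rw [e]
      exact A.injective.mem_set_image
    have hset : {s : ℝ | B y - inner ℝ (B y) u • u + s • u ∈ A '' K} =
        {s : ℝ | (s - k) / a ∈ {s' : ℝ | y - inner ℝ y v • v + s' • v ∈ K}} := by
      ext s
      simp only [mem_ofPred_eq]
      rw [hpr, hfib, ← hr, ← hz]
    have hvol : (volume {s : ℝ | B y - inner ℝ (B y) u • u + s • u ∈ A '' K}).toReal =
        a * (volume {s' : ℝ | y - inner ℝ y v • v + s' • v ∈ K}).toReal := by
      rw [hset, volume_affine_preimage ha, ENNReal.toReal_mul, ENNReal.toReal_ofReal ha.le]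
    have hex : (∃ s : ℝ, B y - inner ℝ (B y) u • u + s • u ∈ A '' K) ↔
        ∃ s : ℝ, y - inner ℝ y v • v + s • v ∈ K := by
      constructor
      · rintro ⟨s, hs⟩
        rw [hpr, hfib] at hs
        exact ⟨(s - k) / a, by rw [← hr, ← hz]; exact hs⟩
      · rintro ⟨s, hs⟩
        refine ⟨a * s + k, ?_⟩
        rw [hpr, hfib, add_sub_cancel_right, mul_div_cancel_left₀ _ ha.ne']
        rw [← hr, ← hz] at hs
        exact hs
    have hineq : 2 * |inner ℝ (B y) u| ≤
        (volume {s : ℝ | B y - inner ℝ (B y) u • u + s • u ∈ A '' K}).toReal ↔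
        2 * |inner ℝ y v| ≤ (volume {s' : ℝ | y - inner ℝ y v • v + s' • v ∈ K}).toReal := by
      rw [hvol, hin, ← hr, abs_mul, abs_of_pos ha]
      have e : 2 * (|r| * a) = a * (2 * |r|) := by ring
      rw [e]
      exact mul_le_mul_iff_right₀ ha
    exact and_congr hex hineq
  ext x
  constructor
  · intro hx
    refine ⟨B.symm x, ?_, B.apply_symm_apply x⟩
    rw [← key, B.apply_symm_apply]
    exact hx
  · rintro ⟨y, hy, rfl⟩
    exact (key y).2 hy

end MP_02d86d_gt
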