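import Pool.Agent.Work.MP_02d86d_gt.Lin.TReal
import Pool.Agent.Work.MP_02d86d_gt.Dih.Angle

/-! The angles between the directions in normalized frames. -/

set_option autoImplicit false

namespace MP_02d86d_gt

open MeasureTheory Set Filter Topology Metric

/-- the angles `e i` in the normalized frames -/
theorem exists_angle (d : ℕ → ℝ) {t0 : ℝ} (h0 : 0 < t0) :
    ∃ e : ℕ → ℝ, ∀ i,
      Real.cos (e i) = √(tt d t0 i) * Real.cos (d i) / √(tt d t0 (i + 1)) ∧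
      Real.sin (e i) = Real.sin (d i) / (√(tt d t0 i) * √(tt d t0 (i + 1))) := by
  refine ⟨fun i => Complex.arg ⟨√(tt d t0 i) * Real.cos (d i) / √(tt d t0 (i + 1)),
    Real.sin (d i) / (√(tt d t0 i) * √(tt d t0 (i + 1)))⟩, fun i => ?_⟩
  have h1 : 0 < tt d t0 i := tt_pos h0 i
  have h2 : 0 < tt d t0 (i + 1) := tt_pos h0 (i + 1)
  set z : ℂ := ⟨√(tt d t0 i) * Real.cos (d i) / √(tt d t0 (i + 1)),
    Real.sin (d i) / (√(tt d t0 i) * √(tt d t0 (i + 1)))⟩ with hz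
  have hn : ‖z‖ = 1 := by
    have h3 : ‖z‖ ^ 2 = 1 := by
      rw [Complex.sq_norm, Complex.normSq_apply, hz]
      simp only []
      have e1 : √(tt d t0 i) * Real.cos (d i) / √(tt d t0 (i + 1)) *
          (√(tt d t0 i) * Real.cos (d i) / √(tt d t0 (i + 1))) =
          tt d t0 i * Real.cos (d i) ^ 2 / tt d t0 (i + 1) := by
        rw [div_mul_div_comm, Real.mul_self_sqrt h2.le, mul_mul_mul_comm,
          Real.mul_self_sqrt h1.le, sq]
      have e2 : Real.sin (d i) / (√(tt d t0 i) * √(tt d t0 (i + 1))) *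
          (Real.sin (d i) / (√(tt d t0 i) * √(tt d t0 (i + 1)))) =
          Real.sin (d i) ^ 2 / tt d t0 i / tt d t0 (i + 1) := by
        rw [div_mul_div_comm, mul_mul_mul_comm, Real.mul_self_sqrt h2.le,
          Real.mul_self_sqrt h1.le, div_div, sq]
      rw [e1, e2, ← add_div]
      have e3 : tt d t0 (i + 1) =
        tt d t0 i * Real.cos (d i) ^ 2 + Real.sin (d i) ^ 2 / tt d t0 i := rfl
      rw [← e3, div_self h2.ne']
    have h4 := norm_nonneg z
    nlinarith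
  have hz0 : z ≠ 0 := by
    intro h
    rw [h, norm_zero] at hn
    exact zero_ne_one hn
  refine ⟨?_, ?_⟩
  · rw [Complex.cos_arg hz0, hn, div_one]
  · rw [Complex.sin_arg, hn, div_one]

theorem summable_angle {d e : ℕ → ℝ} {t0 : ℝ} (h0 : 0 < t0)
    (he : ∀ i, Real.cos (e i) = √(tt d t0 i) * Real.cos (d i) / √(tt d t0 (i + 1)) ∧
      Real.sin (e i) = Real.sin (d i) / (√(tt d t0 i) * √(tt d t0 (i + 1))))
    {m : ℕ} (hs : Summable fun i => Real.sin (m * d i) ^ 2) :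
    Summable fun i => Real.sin (m * e i) ^ 2 := by
  obtain ⟨T, hT1, hT⟩ := tt_bound d h0
  have hT0 : 0 < T := by linarith
  have hS := tt_summable d h0
  refine Summable.of_nonneg_of_le (fun i => sq_nonneg _) (fun i => ?_)
    ((hs.mul_left 2).add (hS.mul_left (2 * (m ^ 2 * (T ^ 2 / 4)))))
  have h1 : 0 < tt d t0 i := tt_pos h0 i
  have h2 : 0 < tt d t0 (i + 1) := tt_pos h0 (i + 1)
  have e1 : Real.sin (e i - d i) =
      Real.sin (d i) * Real.cos (d i) * (1 - tt d t0 i) /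
        (√(tt d t0 i) * √(tt d t0 (i + 1))) := by
    rw [Real.sin_sub, (he i).1, (he i).2]
    have h3 : √(tt d t0 i) ≠ 0 := (Real.sqrt_pos.2 h1).ne'
    have h4 : √(tt d t0 (i + 1)) ≠ 0 := (Real.sqrt_pos.2 h2).ne'
    have h5 : √(tt d t0 i) * √(tt d t0 i) = tt d t0 i := Real.mul_self_sqrt h1.le
    have h6 : 1 - tt d t0 i = 1 - √(tt d t0 i) * √(tt d t0 i) := by rw [h5]
    rw [h6]
    field_simp
  have e2 : Real.sin (e i - d i) ^ 2 ≤
      T ^ 2 / 4 * (Real.sin (2 * d i) ^ 2 * (tt d t0 i - 1) ^ 2) := by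
    rw [e1, div_pow, mul_pow (√(tt d t0 i)), Real.sq_sqrt h1.le, Real.sq_sqrt h2.le,
      Real.sin_two_mul, div_le_iff₀ (mul_pos h1 h2)]
    have h3 := (hT i).2
    have h4 := (hT (i + 1)).2
    have h5 : 1 ≤ T ^ 2 * (tt d t0 i * tt d t0 (i + 1)) := by
      have h6 : T⁻¹ * T⁻¹ ≤ tt d t0 i * tt d t0 (i + 1) :=
        mul_le_mul h3 h4 (inv_nonneg.2 hT0.le) h1.le
      have h7 := mul_le_mul_of_nonneg_left h6 (sq_nonneg T)
      have h8 : T ^ 2 * (T⁻¹ * T⁻¹) = 1 := by field_simp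
      linarith
    have h6 : 0 ≤ (Real.sin (d i) * Real.cos (d i) * (1 - tt d t0 i)) ^ 2 := sq_nonneg _
    have h7 := mul_le_mul_of_nonneg_left h5 h6
    have h8 : T ^ 2 / 4 * ((2 * Real.sin (d i) * Real.cos (d i)) ^ 2 * (tt d t0 i - 1) ^ 2) *
        (tt d t0 i * tt d t0 (i + 1)) =
        (Real.sin (d i) * Real.cos (d i) * (1 - tt d t0 i)) ^ 2 *
          (T ^ 2 * (tt d t0 i * tt d t0 (i + 1))) := by ring
    linarith
  have e3 := sin_sub_sq_le (m * d i) (-(m * (e i - d i)))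
  have e4 : (m : ℝ) * d i - -(m * (e i - d i)) = m * e i := by ring
  rw [e4, Real.sin_neg, neg_sq] at e3
  have e5 := sin_sq_nat_mul_le m (e i - d i)
  have e6 : (m : ℝ) ^ 2 * Real.sin (e i - d i) ^ 2 ≤
      m ^ 2 * (T ^ 2 / 4 * (Real.sin (2 * d i) ^ 2 * (tt d t0 i - 1) ^ 2)) :=
    mul_le_mul_of_nonneg_left e2 (sq_nonneg _)
  calc Real.sin (m * e i) ^ 2 ≤ _ := e3
    _ ≤ 2 * Real.sin (m * d i) ^ 2 + 2 * ((m : ℝ) ^ 2 *
        (T ^ 2 / 4 * (Real.sin (2 * d i) ^ 2 * (tt d t0 i - 1) ^ 2))) := by linarith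
    _ = _ := by ring

end MP_02d86d_gt
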