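import Pool.Agent.Work.MP_02d86d_gt.Lin.DefT

/-! A generic start for the ellipses. -/

set_option autoImplicit false

namespace MP_02d86d_gt

open Set Polynomial

private theorem tg_pos {d : ℕ → ℝ} {t0 : ℝ} (h0 : 0 < t0) (i : ℕ) : 0 < tt d t0 i := by
  induction i with
  | zero => exact h0
  | succ i ih =>
    have h1 : tt d t0 (i + 1) = tt d t0 i * Real.cos (d i) ^ 2 +
      Real.sin (d i) ^ 2 / tt d t0 i := rfl
    rw [h1]
    have h2 := Real.sin_sq_add_cos_sq (d i)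
    rcases eq_or_ne (Real.cos (d i)) 0 with h3 | h3
    · have h4 : Real.sin (d i) ^ 2 = 1 := by rw [h3] at h2; linarith
      rw [h3, h4]
      positivity
    · positivity

theorem quad_ne {a b c : ℝ} (h : a ≠ 0 ∨ c ≠ 0) : C a * X ^ 2 + C b * X + C c ≠ 0 := by
  intro h0
  have hc0 : (C a * X ^ 2 + C b * X + C c).coeff 0 = c := by
    simp [coeff_X, coeff_C]
  have hc2 : (C a * X ^ 2 + C b * X + C c).coeff 2 = a := by
    simp [coeff_X, coeff_C]
  rw [h0, coeff_zero] at hc0 hc2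
  rcases h with h | h
  · exact h hc2.symm
  · exact h hc0.symm

/-- The preimages of a point are finite. -/
theorem finite_preimage_tt (d : ℕ → ℝ) (i : ℕ) (y : ℝ) :
    {t0 : ℝ | 0 < t0 ∧ tt d t0 i = y}.Finite := by
  induction i generalizing y with
  | zero =>
    refine (finite_singleton y).subset ?_
    rintro t ⟨-, ht⟩
    exact ht
  | succ i ih =>
    obtain ⟨P, hP⟩ : ∃ P : ℝ[X], P = C (Real.cos (d i) ^ 2) * X ^ 2 + C (-y) * X +
        C (Real.sin (d i) ^ 2) := ⟨_, rfl⟩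
    have hP0 : P ≠ 0 := by
      rw [hP]
      refine quad_ne ?_
      by_contra! h
      have h2 := Real.sin_sq_add_cos_sq (d i)
      rw [h.1, h.2] at h2
      linarith
    have hfin : {t : ℝ | P.IsRoot t}.Finite := finite_setOf_isRoot hP0
    refine (hfin.biUnion fun t _ => ih t).subset ?_
    rintro t0 ⟨h0, ht⟩
    have hpos := tg_pos (d := d) h0 i
    refine mem_iUnion₂.2 ⟨tt d t0 i, ?_, h0, rfl⟩
    have h1 : tt d t0 (i + 1) = tt d t0 i * Real.cos (d i) ^ 2 +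
      Real.sin (d i) ^ 2 / tt d t0 i := rfl
    rw [h1] at ht
    show P.IsRoot (tt d t0 i)
    rw [hP, IsRoot.def]
    simp only [eval_add, eval_mul, eval_C, eval_pow, eval_X]
    rw [← ht]
    field_simp
    ring

/-- The bad values for one step are finite. -/
theorem finite_bad (d : ℝ) {m : ℕ} (hm : 4 ∣ m) :
    {t : ℝ | 0 < t ∧ ∃ x : ℝ,
      Real.cos x = √t * Real.cos d / √(t * Real.cos d ^ 2 + Real.sin d ^ 2 / t) ∧
      Real.sin x = Real.sin d / (√t * √(t * Real.cos d ^ 2 + Real.sin d ^ 2 / t)) ∧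
      Real.cos (m * x) = 0}.Finite := by
  obtain ⟨q, hq⟩ := hm
  rcases eq_or_ne (Real.sin d) 0 with hs | hs
  · refine (finite_empty).subset ?_
    rintro t ⟨-, x, -, h2, h3⟩
    rw [hs, zero_div, Real.sin_eq_zero_iff] at h2
    obtain ⟨k, rfl⟩ := h2
    have h4 : Real.cos (m * (k * Real.pi)) = 1 := by
      refine (congrArg Real.cos ?_).trans (Real.cos_int_mul_two_pi (2 * q * k))
      rw [hq]
      push_cast
      ring
    rw [h4] at h3
    exact one_ne_zero h3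
  rcases eq_or_ne (Real.cos d) 0 with hc | hc
  · refine (finite_empty).subset ?_
    rintro t ⟨-, x, h1, -, h3⟩
    rw [hc, mul_zero, zero_div, Real.cos_eq_zero_iff] at h1
    obtain ⟨k, rfl⟩ := h1
    have h4 : Real.cos (m * ((2 * k + 1) * Real.pi / 2)) = 1 := by
      refine (congrArg Real.cos ?_).trans (Real.cos_int_mul_two_pi (q * (2 * k + 1)))
      rw [hq]
      push_cast
      ring
    rw [h4] at h3
    exact one_ne_zero h3
  have hT0 : Chebyshev.T ℝ (m : ℤ) ≠ 0 := by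
    intro h
    have h1 := Chebyshev.T_real_cos 0 (m : ℤ)
    rw [h] at h1
    simp at h1
  have hZ : {z : ℝ | (Chebyshev.T ℝ (m : ℤ)).IsRoot z}.Finite := finite_setOf_isRoot hT0
  have hfin : ∀ z : ℝ, {t : ℝ | z ^ 2 * (t ^ 2 * Real.cos d ^ 2 + Real.sin d ^ 2) =
      t ^ 2 * Real.cos d ^ 2}.Finite := by
    intro z
    obtain ⟨P, hP⟩ : ∃ P : ℝ[X], P = C (z ^ 2 * Real.cos d ^ 2 - Real.cos d ^ 2) * X ^ 2 +
        C 0 * X + C (z ^ 2 * Real.sin d ^ 2) := ⟨_, rfl⟩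
    have hP0 : P ≠ 0 := by
      rw [hP]
      refine quad_ne ?_
      by_contra! h
      obtain ⟨hc2, hc0⟩ := h
      have h1 : z ^ 2 = 0 := by
        rcases mul_eq_zero.1 hc0 with h1 | h1
        · exact h1
        · exact absurd h1 (pow_ne_zero 2 hs)
      rw [h1, zero_mul, zero_sub, neg_eq_zero] at hc2
      exact pow_ne_zero 2 hc hc2
    refine (finite_setOf_isRoot hP0).subset ?_
    intro t ht
    have ht' : z ^ 2 * (t ^ 2 * Real.cos d ^ 2 + Real.sin d ^ 2) = t ^ 2 * Real.cos d ^ 2 := ht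
    show P.IsRoot t
    rw [hP, IsRoot.def]
    simp only [eval_add, eval_mul, eval_C, eval_pow, eval_X]
    linear_combination ht'
  refine (hZ.biUnion fun z _ => hfin z).subset ?_
  rintro t ⟨ht, x, h1, -, h3⟩
  refine mem_iUnion₂.2 ⟨Real.cos x, ?_, ?_⟩
  · show (Chebyshev.T ℝ (m : ℤ)).IsRoot (Real.cos x)
    rw [IsRoot.def, Chebyshev.T_real_cos]
    exact_mod_cast h3
  · show Real.cos x ^ 2 * (t ^ 2 * Real.cos d ^ 2 + Real.sin d ^ 2) = t ^ 2 * Real.cos d ^ 2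
    have hw : 0 < t * Real.cos d ^ 2 + Real.sin d ^ 2 / t := by positivity
    rw [h1, div_pow, mul_pow, Real.sq_sqrt ht.le, Real.sq_sqrt hw.le]
    field_simp

theorem exists_start (d : ℕ → ℝ) {m : ℕ} (hm : 4 ∣ m) (hm0 : 0 < m) :
    ∃ t0 : ℝ, 0 < t0 ∧ ∀ e : ℕ → ℝ,
      (∀ i, Real.cos (e i) = √(tt d t0 i) * Real.cos (d i) / √(tt d t0 (i + 1)) ∧
        Real.sin (e i) = Real.sin (d i) / (√(tt d t0 i) * √(tt d t0 (i + 1)))) →
      ∀ i, Real.cos (m * e i) ≠ 0 := by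
  obtain ⟨B, hB⟩ : ∃ B : ℕ → Set ℝ, ∀ i, B i = {t : ℝ | 0 < t ∧ ∃ x : ℝ,
      Real.cos x = √t * Real.cos (d i) / √(t * Real.cos (d i) ^ 2 + Real.sin (d i) ^ 2 / t) ∧
      Real.sin x = Real.sin (d i) /
        (√t * √(t * Real.cos (d i) ^ 2 + Real.sin (d i) ^ 2 / t)) ∧
      Real.cos (m * x) = 0} := ⟨_, fun i => rfl⟩
  have hBf : ∀ i, (B i).Finite := fun i => by
    rw [hB]
    exact finite_bad (d i) hm
  have hcount : (⋃ i, ⋃ y ∈ B i, {t0 : ℝ | 0 < t0 ∧ tt d t0 i = y}).Countable :=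
    countable_iUnion fun i => ((hBf i).biUnion fun y _ => finite_preimage_tt d i y).countable
  obtain ⟨t0, ht0, ht⟩ := (hcount.dense_compl ℝ).exists_mem_open isOpen_Ioi
    (⟨1, mem_Ioi.2 one_pos⟩ : (Ioi (0 : ℝ)).Nonempty)
  have hpos : 0 < t0 := ht
  refine ⟨t0, hpos, fun e he i h0 => ht0 ?_⟩
  refine mem_iUnion.2 ⟨i, mem_iUnion₂.2 ⟨tt d t0 i, ?_, hpos, rfl⟩⟩
  rw [hB]
  exact ⟨tg_pos hpos i, e i, (he i).1, (he i).2, h0⟩

end MP_02d86d_gt
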