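import Pool.Agent.Work.MP_02d86d_gt.Lin.TReal
import Pool.Agent.Work.MP_02d86d_gt.Lin.TAngle
import Pool.Agent.Work.MP_02d86d_gt.Lin.TGen
import Pool.Agent.Work.MP_02d86d_gt.Lin.StLin
import Pool.Agent.Work.MP_02d86d_gt.Lin.LinLim
import Pool.Agent.Work.MP_02d86d_gt.Lin.Frame
import Pool.Agent.Work.MP_02d86d_gt.Plane.NonEll
import Pool.Agent.Work.MP_02d86d_gt.B.Cluster
import Pool.Agent.Work.MP_02d86d_gt.Comp

/-! For every summable sequence of angles some body has no ellipsoid as shape limit. -/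

set_option autoImplicit false

namespace MP_02d86d_gt

open MeasureTheory Set Filter Topology Metric

theorem not_ellipsoid_all {θ : ℕ → ℝ} {p : ℕ} (hp : 1 ≤ p)
    (hs : Summable fun i => Real.sin (p * (θ (i + 1) - θ i)) ^ 2) :
    ∃ (R : ℝ) (K : ℕ → Set (EuclideanSpace ℝ (Fin 2))), Iter R (fun i => dir (θ i)) K ∧
      ∀ (ψ : ℕ → (EuclideanSpace ℝ (Fin 2) ≃ₗᵢ[ℝ] EuclideanSpace ℝ (Fin 2)))
        (L : Set (EuclideanSpace ℝ (Fin 2))), IsCompact L → L.Nonempty →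
        Tendsto (fun i => hausdorffDist (ψ i '' K i) L) atTop (𝓝 0) →
        ¬ ∃ A : AffineEquiv ℝ (EuclideanSpace ℝ (Fin 2)) (EuclideanSpace ℝ (Fin 2)),
          L = A '' closedBall 0 1 := by
  obtain ⟨d, hd⟩ : ∃ d : ℕ → ℝ, d = fun i => θ (i + 1) - θ i := ⟨_, rfl⟩
  have hdi : ∀ i, d i = θ (i + 1) - θ i := fun i => by rw [hd]
  -- the factor `4 p`
  obtain ⟨m, hm⟩ : ∃ m : ℕ, m = 4 * p := ⟨_, rfl⟩
  have hmd : 4 ∣ m := ⟨p, hm⟩
  have hm3 : 3 ≤ m := by omega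
  have hsm : Summable fun i => Real.sin (m * d i) ^ 2 := by
    refine Summable.of_nonneg_of_le (fun i => sq_nonneg _) (fun i => ?_) (hs.mul_left 16)
    have h1 : Real.sin (m * d i) = 2 * Real.sin (2 * (p * d i)) * Real.cos (2 * (p * d i)) := by
      rw [← Real.sin_two_mul]
      congr 1
      rw [hm]
      push_cast
      ring
    have h2 : Real.sin (2 * (p * d i)) = 2 * Real.sin (p * d i) * Real.cos (p * d i) :=
      Real.sin_two_mul _
    rw [h1, h2, ← hdi i]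
    have h3 := Real.cos_sq_le_one (2 * (p * d i))
    have h4 := Real.cos_sq_le_one (p * d i)
    have h5 := sq_nonneg (Real.sin (p * d i))
    have h6 := sq_nonneg (Real.cos (p * d i))
    have h7 := sq_nonneg (Real.cos (2 * (p * d i)))
    calc (2 * (2 * Real.sin (p * d i) * Real.cos (p * d i)) * Real.cos (2 * (p * d i))) ^ 2
        = 16 * Real.sin (p * d i) ^ 2 * (Real.cos (p * d i) ^ 2 * Real.cos (2 * (p * d i)) ^ 2) := by
          ring
      _ ≤ 16 * Real.sin (p * d i) ^ 2 * 1 := by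
          refine mul_le_mul_of_nonneg_left ?_ (by positivity)
          exact mul_le_one₀ h4 h7 h3
      _ = 16 * Real.sin (p * d i) ^ 2 := mul_one _
  obtain ⟨t0, ht0, hgen⟩ := exists_start d hmd (by omega)
  obtain ⟨e, he⟩ := exists_angle d ht0
  have hne := hgen e he
  have hse := summable_angle ht0 he hsm
  obtain ⟨T, hT1, hT⟩ := tt_bound d ht0
  have htp : ∀ i, 0 < tt d t0 i := fun i => tt_pos ht0 i
  obtain ⟨s, hsd⟩ : ∃ s : ℕ → ℝ, s = fun i => √(tt d t0 i) := ⟨_, rfl⟩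
  have hsi : ∀ i, s i = √(tt d t0 i) := fun i => by rw [hsd]
  have hsp : ∀ i, 0 < s i := fun i => by
    rw [hsi]
    exact Real.sqrt_pos.2 (htp i)
  have hss : ∀ i, s i ^ 2 = tt d t0 i := fun i => by
    rw [hsi]
    exact Real.sq_sqrt (htp i).le
  -- the angles in the normalized frames
  obtain ⟨θ', hθ'0, hθ's⟩ : ∃ θ' : ℕ → ℝ, θ' 0 = θ 0 ∧ ∀ i, θ' (i + 1) = θ' i + e i :=
    ⟨fun i => θ 0 + ∑ j ∈ Finset.range i, e j, by simp, fun i => by
      beta_reduce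
      rw [Finset.sum_range_succ]
      ring⟩
  have hθs : ∀ i, θ (i + 1) = θ i + d i := fun i => by
    rw [hdi]
    ring
  have hee : ∀ i, θ' (i + 1) - θ' i = e i := fun i => by
    rw [hθ's]
    ring
  obtain ⟨R, K', hK', hK'n⟩ := not_ellipsoid (θ := θ') hm3
    (by simpa only [hee] using hse) (by simpa only [hee] using hne)
  -- the frames
  obtain ⟨G, hG⟩ : ∃ G : ℕ → (EuclideanSpace ℝ (Fin 2) ≃ₗ[ℝ] EuclideanSpace ℝ (Fin 2)),
      ∀ i, G i = fr (θ i) (θ' i) (s i) (hsp i).ne' := ⟨_, fun i => rfl⟩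
  have hstep : ∀ (i : ℕ) (A : Set (EuclideanSpace ℝ (Fin 2))),
      st (dir (θ (i + 1))) (G i '' A) = G (i + 1) '' st (dir (θ' (i + 1))) A := by
    intro i A
    have h := frame_step (θ := θ i) (θ' := θ' i) (d := d i) (e := e i) (hsp i).ne'
      (hsp (i + 1)).ne' (by rw [hss, hss]; rfl)
      (by rw [hsi, hsi]; exact (he i).1) (by rw [hsi, hsi]; exact (he i).2)
    obtain ⟨h1, h2, h3, h4⟩ := h
    rw [hG, hG]
    simp only [hθs, hθ's]
    exact st_linear (norm_dir _) (norm_dir _) (inv_pos.2 (hsp (i + 1))) _ _ h1 h2 h3 h4 A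
  have hstep0 : ∀ A : Set (EuclideanSpace ℝ (Fin 2)),
      st (dir (θ 0)) (G 0 '' A) = G 0 '' st (dir (θ' 0)) A := by
    intro A
    have h := frame_step (θ := θ 0) (θ' := θ' 0) (d := 0) (e := 0) (hsp 0).ne'
      (hsp 0).ne' (by simp) (by rw [Real.cos_zero, mul_one, div_self (hsp 0).ne']) (by simp)
    obtain ⟨h1, h2, h3, h4⟩ := h
    rw [hG]
    simp only [add_zero] at h1 h2 h3 h4
    exact st_linear (norm_dir _) (norm_dir _) (inv_pos.2 (hsp 0)) _ _ h1 h2 h3 h4 A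
  obtain ⟨F, hF0, hFs⟩ : ∃ F : ℕ → (EuclideanSpace ℝ (Fin 2) ≃ₗ[ℝ] EuclideanSpace ℝ (Fin 2)),
      F 0 = G 0 ∧ ∀ i, F (i + 1) = G i := ⟨fun i => G (i - 1), rfl, fun i => rfl⟩
  -- the symmetrals
  have hKs : ∀ i, F (i + 1) '' K' (i + 1) = st (dir (θ i)) (F i '' K' i) := by
    intro i
    rw [hK'.step i, hFs]
    cases i with
    | zero => rw [hF0, hstep0]
    | succ i => rw [hFs, hstep]
  have hcont : ∀ i, Continuous (F i) := fun i => LinearMap.continuous_of_finiteDimensional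
    (F i).toLinearMap
  have hint : (interior (F 0 '' K' 0)).Nonempty := by
    have h1 : (interior (K' 0)).Nonempty :=
      interior_nonempty_of_volume (hK'.cvx 0) hK'.pos
    have h2 : interior (F 0 '' K' 0) = F 0 '' interior (K' 0) :=
      ((F 0).toContinuousLinearEquiv.toHomeomorph.image_interior (K' 0)).symm
    rw [h2]
    exact h1.image _
  obtain ⟨R₁, hR₁⟩ := exists_iter (u := fun i => dir (θ i)) (K := fun i => F i '' K' i)
    (fun i => norm_dir _) hKs ((hK'.cpt 0).image (hcont 0))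
    ((hK'.cvx 0).linear_image (F 0).toLinearMap) hint
  refine ⟨R₁, _, hR₁, ?_⟩
  rintro ψ L hL hLn hlim ⟨A, hA⟩
  -- bounds for the frames
  obtain ⟨c, hc0, hc⟩ : ∃ c : ℝ, 0 < c ∧ ∀ i, c ≤ s i ∧ c ≤ (s i)⁻¹ := by
    have hT0 : 0 < √T := Real.sqrt_pos.2 (by linarith)
    refine ⟨(√T)⁻¹, inv_pos.2 hT0, fun i => ⟨?_, ?_⟩⟩
    · rw [hsi, ← Real.sqrt_inv]
      exact Real.sqrt_le_sqrt (hT i).2
    · rw [hsi]
      exact inv_anti₀ (Real.sqrt_pos.2 (htp i)) (Real.sqrt_le_sqrt (hT i).1)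
  have hFb : ∀ i, ∃ j, F i = G j := fun i => by
    cases i with
    | zero => exact ⟨0, hF0⟩
    | succ i => exact ⟨i, hFs i⟩
  have hM1 : ∀ i x, ‖((F i).trans (ψ i).toLinearEquiv) x‖ ≤ c⁻¹ * ‖x‖ := by
    intro i x
    obtain ⟨j, hj⟩ := hFb i
    have h1 : ((F i).trans (ψ i).toLinearEquiv) x = ψ i (F i x) := rfl
    rw [h1, LinearIsometryEquiv.norm_map, hj, hG]
    exact norm_fr_le (hsp j) hc0 (hc j).1 (hc j).2 _ _ x
  have hM2 : ∀ i x, c * ‖x‖ ≤ ‖((F i).trans (ψ i).toLinearEquiv) x‖ := by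
    intro i x
    obtain ⟨j, hj⟩ := hFb i
    have h1 : ((F i).trans (ψ i).toLinearEquiv) x = ψ i (F i x) := rfl
    rw [h1, LinearIsometryEquiv.norm_map, hj, hG]
    exact le_norm_fr (hsp j) hc0 (hc j).1 (hc j).2 _ _ x
  have hlim' : Tendsto (fun i => hausdorffDist
      (((F i).trans (ψ i).toLinearEquiv) '' K' i) L) atTop (𝓝 0) := by
    refine hlim.congr fun i => ?_
    rw [image_image]
    rfl
  obtain ⟨φ, N, L', hφ, hL'c, hL'v, hL'n, hL'R, hL', hlim2⟩ := linear_limit hc0 hK'.ne hK'.cpt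
    hK'.cvx hK'.sub _ hM1 hM2 hL hLn hlim'
  obtain ⟨-, χ, hχ⟩ := hK'.cluster hφ (fun _ => LinearIsometryEquiv.refl ℝ _) hL'c hL'v hL'n hL'R
    (by simpa using hlim2)
  refine hK'n χ L' hL'c hL'n hχ ⟨A.trans N.symm.toAffineEquiv, ?_⟩
  have h1 : L' = N.symm '' L := by
    rw [hL', image_image]
    simp
  rw [h1, hA, image_image]
  rfl

end MP_02d86d_gt
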