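import Mathlib

/-! The dynamics of ellipses under Steiner symmetrization. -/

set_option autoImplicit false

namespace MP_02d86d_gt

/-- The squares of the semi-axes of the symmetrals of an ellipse of area `π`: `tt d t0 i` belongs
to the axis orthogonal to the `i`-th direction, `d i` is the angle between the directions `i` and
`i + 1`. -/
noncomputable def tt (d : ℕ → ℝ) (t0 : ℝ) : ℕ → ℝ
  | 0 => t0
  | i + 1 => tt d t0 i * Real.cos (d i) ^ 2 + Real.sin (d i) ^ 2 / tt d t0 i

end MP_02d86d_gt
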