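import Pool.Agent.Work.MP_02d86d_gt.Lin.DefT

/-! Bounds for the dynamics of ellipses. -/

set_option autoImplicit false

namespace MP_02d86d_gt

theorem tt_succ (d : ℕ → ℝ) (t0 : ℝ) (i : ℕ) :
    tt d t0 (i + 1) = tt d t0 i * Real.cos (d i) ^ 2 + Real.sin (d i) ^ 2 / tt d t0 i := rfl

theorem tt_pos {d : ℕ → ℝ} {t0 : ℝ} (h0 : 0 < t0) (i : ℕ) : 0 < tt d t0 i := by
  induction i with
  | zero => exact h0
  | succ i ih =>
    rw [tt_succ]
    have h2 := Real.sin_sq_add_cos_sq (d i)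
    rcases eq_or_ne (Real.cos (d i)) 0 with h3 | h3
    · have h4 : Real.sin (d i) ^ 2 = 1 := by rw [h3] at h2; linarith
      rw [h3, h4]
      positivity
    · positivity

theorem tt_bound (d : ℕ → ℝ) {t0 : ℝ} (h0 : 0 < t0) :
    ∃ T : ℝ, 1 ≤ T ∧ ∀ i, tt d t0 i ≤ T ∧ T⁻¹ ≤ tt d t0 i := by
  obtain ⟨T, hT1, hTa, hTb⟩ : ∃ T : ℝ, 1 ≤ T ∧ t0 ≤ T ∧ T⁻¹ ≤ t0 := by
    refine ⟨max 1 (max t0 t0⁻¹), le_max_left _ _, (le_max_left _ _).trans (le_max_right _ _), ?_⟩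
    rw [← inv_inv t0]
    refine inv_anti₀ (inv_pos.2 h0) ?_
    rw [inv_inv]
    exact (le_max_right _ _).trans (le_max_right _ _)
  have hT0 : 0 < T := by linarith
  refine ⟨T, hT1, fun i => ?_⟩
  induction i with
  | zero => exact ⟨hTa, hTb⟩
  | succ i ih =>
    have hp := tt_pos (d := d) h0 i
    have h2 := Real.sin_sq_add_cos_sq (d i)
    have hs := sq_nonneg (Real.sin (d i))
    have hc := sq_nonneg (Real.cos (d i))
    have hi1 : (tt d t0 i)⁻¹ ≤ T := by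
      rw [← inv_inv T]
      exact inv_anti₀ (inv_pos.2 hT0) ih.2
    have hi2 : T⁻¹ ≤ (tt d t0 i)⁻¹ := inv_anti₀ hp ih.1
    rw [tt_succ, div_eq_mul_inv]
    constructor
    · calc tt d t0 i * Real.cos (d i) ^ 2 + Real.sin (d i) ^ 2 * (tt d t0 i)⁻¹
          ≤ T * Real.cos (d i) ^ 2 + Real.sin (d i) ^ 2 * T :=
            add_le_add (mul_le_mul_of_nonneg_right ih.1 hc) (mul_le_mul_of_nonneg_left hi1 hs)
        _ = T * (Real.sin (d i) ^ 2 + Real.cos (d i) ^ 2) := by ring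
        _ = T := by rw [h2, mul_one]
    · calc T⁻¹ = T⁻¹ * (Real.sin (d i) ^ 2 + Real.cos (d i) ^ 2) := by rw [h2, mul_one]
        _ = T⁻¹ * Real.cos (d i) ^ 2 + Real.sin (d i) ^ 2 * T⁻¹ := by ring
        _ ≤ tt d t0 i * Real.cos (d i) ^ 2 + Real.sin (d i) ^ 2 * (tt d t0 i)⁻¹ :=
            add_le_add (mul_le_mul_of_nonneg_right ih.2 hc) (mul_le_mul_of_nonneg_left hi2 hs)

/-- The decrement of `t + 1 / t`. -/
theorem tt_decr {t c s : ℝ} (ht : 0 < t) (h : s ^ 2 + c ^ 2 = 1)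
    (hp : 0 < t * c ^ 2 + s ^ 2 / t) :
    c ^ 2 * s ^ 2 * (t - t⁻¹) ^ 2 =
      (t * c ^ 2 + s ^ 2 / t) * ((t + t⁻¹) - ((t * c ^ 2 + s ^ 2 / t) +
        (t * c ^ 2 + s ^ 2 / t)⁻¹)) := by
  have h1 : (t * c ^ 2 + s ^ 2 / t) * (t * c ^ 2 + s ^ 2 / t)⁻¹ = 1 := mul_inv_cancel₀ hp.ne'
  have hc : c ^ 2 = 1 - s ^ 2 := by linarith
  rw [mul_sub, mul_add (t * c ^ 2 + s ^ 2 / t) (t * c ^ 2 + s ^ 2 / t), h1, hc]
  field_simp
  ring

theorem tt_summable (d : ℕ → ℝ) {t0 : ℝ} (h0 : 0 < t0) :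
    Summable fun i => Real.sin (2 * d i) ^ 2 * (tt d t0 i - 1) ^ 2 := by
  obtain ⟨T, hT1, hT⟩ := tt_bound d h0
  have hT0 : 0 < T := by linarith
  have hp : ∀ i, 0 < tt d t0 i := fun i => tt_pos h0 i
  obtain ⟨W, hW⟩ : ∃ W : ℕ → ℝ, ∀ i, W i = tt d t0 i + (tt d t0 i)⁻¹ := ⟨_, fun i => rfl⟩
  have hW0 : ∀ i, 0 ≤ W i := fun i => by
    rw [hW]
    have := hp i
    positivity
  have hstep : ∀ i, Real.sin (2 * d i) ^ 2 * (tt d t0 i - 1) ^ 2 ≤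
      4 * T ^ 3 * (W i - W (i + 1)) := by
    intro i
    have hd := tt_decr (c := Real.cos (d i)) (s := Real.sin (d i)) (hp i)
      (Real.sin_sq_add_cos_sq (d i)) (by rw [← tt_succ]; exact hp (i + 1))
    rw [← tt_succ, ← hW, ← hW] at hd
    have hX : 0 ≤ Real.cos (d i) ^ 2 * Real.sin (d i) ^ 2 *
        (tt d t0 i - (tt d t0 i)⁻¹) ^ 2 := by positivity
    have hWd : 0 ≤ W i - W (i + 1) := by
      rw [hd] at hX
      exact nonneg_of_mul_nonneg_right hX (hp (i + 1))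
    have h1 : Real.cos (d i) ^ 2 * Real.sin (d i) ^ 2 *
        (tt d t0 i - (tt d t0 i)⁻¹) ^ 2 ≤ T * (W i - W (i + 1)) := by
      rw [hd]
      exact mul_le_mul_of_nonneg_right (hT (i + 1)).1 hWd
    have h2 : (tt d t0 i - 1) ^ 2 ≤ T ^ 2 * (tt d t0 i - (tt d t0 i)⁻¹) ^ 2 := by
      have h3 : tt d t0 i - (tt d t0 i)⁻¹ =
          (tt d t0 i - 1) * ((tt d t0 i + 1) * (tt d t0 i)⁻¹) := by
        have := (hp i).ne'
        field_simp
        ring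
      have h4 : 1 ≤ T * ((tt d t0 i + 1) * (tt d t0 i)⁻¹) := by
        have h5 : T⁻¹ ≤ (tt d t0 i)⁻¹ := inv_anti₀ (hp i) (hT i).1
        have h6 := hp i
        have h7 : T⁻¹ ≤ (tt d t0 i + 1) * (tt d t0 i)⁻¹ :=
          h5.trans (le_mul_of_one_le_left (inv_pos.2 h6).le (by linarith))
        calc (1 : ℝ) = T * T⁻¹ := (mul_inv_cancel₀ hT0.ne').symm
          _ ≤ _ := mul_le_mul_of_nonneg_left h7 hT0.le
      rw [h3, ← mul_pow, show T * ((tt d t0 i - 1) * ((tt d t0 i + 1) * (tt d t0 i)⁻¹)) =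
        (tt d t0 i - 1) * (T * ((tt d t0 i + 1) * (tt d t0 i)⁻¹)) by ring, mul_pow]
      exact le_mul_of_one_le_right (sq_nonneg _) (one_le_pow₀ h4)
    rw [Real.sin_two_mul]
    calc (2 * Real.sin (d i) * Real.cos (d i)) ^ 2 * (tt d t0 i - 1) ^ 2
        ≤ (2 * Real.sin (d i) * Real.cos (d i)) ^ 2 *
          (T ^ 2 * (tt d t0 i - (tt d t0 i)⁻¹) ^ 2) :=
          mul_le_mul_of_nonneg_left h2 (sq_nonneg _)
      _ = 4 * T ^ 2 * (Real.cos (d i) ^ 2 * Real.sin (d i) ^ 2 *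
          (tt d t0 i - (tt d t0 i)⁻¹) ^ 2) := by ring
      _ ≤ 4 * T ^ 2 * (T * (W i - W (i + 1))) := mul_le_mul_of_nonneg_left h1 (by positivity)
      _ = 4 * T ^ 3 * (W i - W (i + 1)) := by ring
  refine summable_of_sum_range_le (c := 4 * T ^ 3 * W 0) (fun i => by positivity) fun m => ?_
  calc ∑ i ∈ Finset.range m, Real.sin (2 * d i) ^ 2 * (tt d t0 i - 1) ^ 2
      ≤ ∑ i ∈ Finset.range m, 4 * T ^ 3 * (W i - W (i + 1)) :=
        Finset.sum_le_sum fun i _ => hstep i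
    _ = 4 * T ^ 3 * (W 0 - W m) := by
        rw [← Finset.mul_sum, Finset.sum_range_sub']
    _ ≤ 4 * T ^ 3 * W 0 := by
        have := hW0 m
        exact mul_le_mul_of_nonneg_left (by linarith) (by positivity)

end MP_02d86d_gt
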